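import Pool.Agent.H471R3.Fer1

/-!
# Ferrier's bornological Runge closure need not be closed

For every `n ≥ 2` there are Lipschitz weights `δ' ≤ δ` on `ℂⁿ` for which the set `L` of
bornological limits of sequences of restrictions of elements of `O(δ)` to `O(δ')` is not closed
for the locally convex inductive limit topology of `O(δ')`.

With coordinates `(z, w, …)`: `S_δ = {|w| < 2}` and `S_δ'` is the union of `{|w| < 1/8}` and
`{|z| < 1, |w - 1| < 1/8}` (all inside the unit polydisc in the other coordinates), with the weights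
decaying like `1 / (1 + |z|)`. The function is `0` on the first part and `exp z` on the second part.
-/

open Filter Topology

namespace Pool.Agent.Results.MP_26d9d0_an.RungeClosureNotClosed

open Pool.Agent.H471R3.Fer

/-- The space `ℂⁿ`. -/
abbrev Cn (n : ℕ) : Type := Fin n → ℂ

/-- A weight on `ℂⁿ`: a continuous function `δ ≥ 0` with `δ(z) → 0` as `|z| → ∞`. -/
structure Weight (n : ℕ) where
  /-- the underlying function -/
  toFun : Cn n → ℝ
  continuous' : Continuous toFun
  nonneg' : ∀ z, 0 ≤ toFun z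
  tendsto' : Tendsto toFun (cocompact (Cn n)) (𝓝 0)

instance {n : ℕ} : CoeFun (Weight n) (fun _ => Cn n → ℝ) := ⟨Weight.toFun⟩

/-- `S_δ = {z | δ(z) > 0}`. -/
def S {n : ℕ} (δ : Weight n) : Set (Cn n) := {z | 0 < δ z}

/-- `‖u‖_N ≤ ε`, i.e. `δ^N |u| ≤ ε` on `S_δ`. -/
def NormLe {n : ℕ} (δ : Weight n) (N : ℕ) (u : Cn n → ℂ) (ε : ℝ) : Prop :=
  ∀ z ∈ S δ, δ z ^ N * ‖u z‖ ≤ ε

theorem Weight.bounded {n : ℕ} (δ : Weight n) : ∃ B : ℝ, 1 ≤ B ∧ ∀ z, δ z ≤ B := by
  have h1 : ∀ᶠ z in cocompact (Cn n), δ z < 1 := δ.tendsto'.eventually_lt_const (by norm_num)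
  rw [Filter.Eventually, mem_cocompact] at h1
  obtain ⟨K, hK, hKs⟩ := h1
  obtain ⟨C, hC⟩ := hK.exists_bound_of_continuousOn δ.continuous'.continuousOn
  refine ⟨max 1 C, le_max_left _ _, fun z => ?_⟩
  by_cases hz : z ∈ K
  · exact ((le_abs_self _).trans (hC z hz)).trans (le_max_right _ _)
  · have : δ z < 1 := hKs hz
    exact this.le.trans (le_max_left _ _)

/-- The space `O(δ)` of holomorphic functions `u` on `S_δ` such that `δ^N u` is bounded on `S_δ`
for some `N`. A function on `S_δ` is represented by its extension by `0` to `ℂⁿ`. -/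
def O {n : ℕ} (δ : Weight n) : Submodule ℂ (Cn n → ℂ) where
  carrier := {u | DifferentiableOn ℂ u (S δ) ∧ (∀ z, z ∉ S δ → u z = 0) ∧
    ∃ (N : ℕ) (C : ℝ), NormLe δ N u C}
  zero_mem' := ⟨differentiableOn_const 0, fun _ _ => rfl, 0, 0, fun z _ => by simp⟩
  add_mem' := by
    rintro u v ⟨hu1, hu2, N, C, hu3⟩ ⟨hv1, hv2, M, D, hv3⟩
    obtain ⟨B, hB1, hB⟩ := δ.bounded
    refine ⟨hu1.add hv1, fun z hz => by simp [hu2 z hz, hv2 z hz], N + M,
      B ^ M * C + B ^ N * D, fun z hz => ?_⟩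
    have h0 : 0 ≤ δ z := δ.nonneg' z
    have e1 := hu3 z hz
    have e2 := hv3 z hz
    have hM : δ z ^ M ≤ B ^ M := pow_le_pow_left₀ h0 (hB z) M
    have hN : δ z ^ N ≤ B ^ N := pow_le_pow_left₀ h0 (hB z) N
    calc δ z ^ (N + M) * ‖(u + v) z‖ ≤ δ z ^ (N + M) * (‖u z‖ + ‖v z‖) := by
          gcongr; exact norm_add_le _ _
      _ = δ z ^ M * (δ z ^ N * ‖u z‖) + δ z ^ N * (δ z ^ M * ‖v z‖) := by ring
      _ ≤ B ^ M * C + B ^ N * D := by
          have p1 : 0 ≤ δ z ^ N * ‖u z‖ := by positivity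
          have p2 : 0 ≤ δ z ^ M * ‖v z‖ := by positivity
          gcongr
  smul_mem' := by
    rintro c u ⟨hu1, hu2, N, C, hu3⟩
    refine ⟨hu1.const_smul c, fun z hz => by simp [hu2 z hz], N, ‖c‖ * C, fun z hz => ?_⟩
    have e1 := hu3 z hz
    calc δ z ^ N * ‖(c • u) z‖ = ‖c‖ * (δ z ^ N * ‖u z‖) := by
          simp only [Pi.smul_apply, norm_smul]; ring
      _ ≤ ‖c‖ * C := by gcongr

/-- The locally convex vector space topologies on `O(δ)` for which all inclusions
`E_N(δ) → O(δ)` are continuous, `E_N(δ)` being the subspace where `‖u‖_N = sup δ^N |u|` is finite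
(the inclusion is linear, so continuity at `0` is required). -/
def stepTopologies {n : ℕ} (δ : Weight n) : Set (TopologicalSpace (O δ)) :=
  {t | @IsTopologicalAddGroup (O δ) t _ ∧ @ContinuousSMul ℂ (O δ) _ _ t ∧
    @LocallyConvexSpace ℝ (O δ) _ _ _ _ t ∧
    ∀ (N : ℕ) (V : Set (O δ)), V ∈ @nhds (O δ) t 0 →
      ∃ ε > 0, ∀ u : O δ, NormLe δ N (u : Cn n → ℂ) ε → u ∈ V}

/-- The locally convex inductive limit topology of the `E_N(δ)` on `O(δ)`: the finest locally
convex vector space topology for which the inclusions `E_N(δ) → O(δ)` are continuous. -/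
@[reducible] def indTop {n : ℕ} (δ : Weight n) : TopologicalSpace (O δ) := sInf (stepTopologies δ)

/-- The image `R` of the restriction map `O(δ) → O(δ')`. -/
def R {n : ℕ} (δ δ' : Weight n) : Set (O δ') :=
  {v | ∃ u : O δ, ∀ z ∈ S δ', (v : Cn n → ℂ) z = (u : Cn n → ℂ) z}

/-- Bornological convergence in `O(δ)`: `‖u_k - v‖_N → 0` for some fixed `N`. -/
def BornLim {n : ℕ} (δ : Weight n) (u : ℕ → O δ) (v : O δ) : Prop :=
  ∃ N : ℕ, ∀ ε > 0, ∀ᶠ k in atTop, NormLe δ N ((u k - v : O δ) : Cn n → ℂ) ε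

/-- The set `L` of all bornological limits in `O(δ')` of sequences in `R`. -/
def L {n : ℕ} (δ δ' : Weight n) : Set (O δ') :=
  {v | ∃ u : ℕ → O δ', (∀ k, u k ∈ R δ δ') ∧ BornLim δ' u v}

/-! ### The topology -/

/-- `indTop δ` is the finest topology in `stepTopologies δ`. -/
theorem indTop_isLeast {n : ℕ} (δ : Weight n) : IsLeast (stepTopologies δ) (indTop δ) := by
  refine ⟨⟨?_, ?_, ?_, ?_⟩, fun t ht => sInf_le ht⟩
  · exact topologicalAddGroup_sInf (fun t ht => ht.1)
  · exact continuousSMul_sInf (fun t ht => ht.2.1)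
  · exact LocallyConvexSpace.sInf (fun t ht => ht.2.2.1)
  · intro N V hV
    rw [indTop, nhds_sInf] at hV
    rw [iInf_subtype' , mem_iInf] at hV
    obtain ⟨I, hI, W, hW, rfl⟩ := hV
    have : ∀ i : I, ∃ ε > 0, ∀ u : O δ, NormLe δ N (u : Cn n → ℂ) ε → u ∈ W i := by
      intro i
      exact (i : {t // t ∈ stepTopologies δ}).2.2.2.2 N (W i) (hW i)
    choose ε hε hεW using this
    have := hI.to_subtype
    have : Fintype I := Fintype.ofFinite _
    obtain ⟨ε0, h0, hle⟩ : ∃ ε0 > 0, ∀ i, ε0 ≤ ε i := by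
      rcases isEmpty_or_nonempty I with h | h
      · exact ⟨1, one_pos, fun i => h.elim i⟩
      · exact ⟨Finset.univ.inf' Finset.univ_nonempty ε,
          (Finset.lt_inf'_iff _).mpr fun i _ => hε i, fun i => Finset.inf'_le _ (Finset.mem_univ i)⟩
    refine ⟨ε0, h0, fun u hu => Set.mem_iInter.mpr fun i => hεW i u fun z hz => (hu z hz).trans (hle i)⟩

theorem BornLim.tendsto {n : ℕ} {δ : Weight n} {u : ℕ → O δ} {v : O δ} (h : BornLim δ u v) :
    Tendsto u atTop (@nhds (O δ) (indTop δ) v) := by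
  obtain ⟨N, hN⟩ := h
  obtain ⟨⟨h1, h2, h3, h4⟩, -⟩ := indTop_isLeast δ
  let _ : TopologicalSpace (O δ) := indTop δ
  have _ : IsTopologicalAddGroup (O δ) := h1
  have key : Tendsto (fun k => u k - v) atTop (@nhds (O δ) (indTop δ) 0) := by
    rw [tendsto_iff_forall_eventually_mem]
    intro V hV
    obtain ⟨ε, hε, hV'⟩ := h4 N V hV
    exact (hN ε hε).mono fun k hk => hV' _ hk
  have := key.add_const v
  simpa using this

/-! ### The weights -/

section example_

variable {n : ℕ}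

/-- the other coordinates -/
def rest (i0 i1 : Fin n) (x : Cn n) : Cn n := fun i => if i = i0 ∨ i = i1 then 0 else x i

/-- a function with `f x ≤ f y + |x - y|` -/
def LE1 (f : Cn n → ℝ) : Prop := ∀ x y, f x ≤ f y + dist x y

theorem LE1.min {f g : Cn n → ℝ} (hf : LE1 f) (hg : LE1 g) : LE1 (fun x => min (f x) (g x)) := by
  intro x y
  rcases le_total (f y) (g y) with h | h
  · simp only [min_eq_left h]
    exact (min_le_left _ _).trans (hf x y)
  · simp only [min_eq_right h]
    exact (min_le_right _ _).trans (hg x y)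

theorem LE1.max {f g : Cn n → ℝ} (hf : LE1 f) (hg : LE1 g) : LE1 (fun x => max (f x) (g x)) := by
  intro x y
  refine max_le ((hf x y).trans ?_) ((hg x y).trans ?_)
  · gcongr; exact le_max_left _ _
  · gcongr; exact le_max_right _ _

theorem LE1.const (c : ℝ) : LE1 (fun _ : Cn n => c) := fun x y => by
  have : 0 ≤ dist x y := dist_nonneg
  linarith

theorem LE1.const_sub {f : Cn n → ℝ} (hf : LE1 f) (c : ℝ) : LE1 (fun x => c - f x) := by
  intro x y
  have := hf y x
  rw [dist_comm] at this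
  linarith

theorem LE1.coord (i : Fin n) (c : ℂ) : LE1 (fun x : Cn n => ‖x i - c‖) := by
  intro x y
  have h1 : ‖x i - c‖ ≤ ‖y i - c‖ + ‖x i - y i‖ := by
    have := norm_add_le (y i - c) (x i - y i)
    refine le_trans (le_of_eq ?_) this
    congr 1; ring
  have h2 : ‖x i - y i‖ ≤ dist x y := by
    rw [← dist_eq_norm]; exact dist_le_pi_dist x y i
  linarith

theorem LE1.rest (i0 i1 : Fin n) : LE1 (fun x : Cn n => ‖rest i0 i1 x‖) := by
  intro x y
  have h1 : ‖RungeClosureNotClosed.rest i0 i1 x‖ ≤ ‖RungeClosureNotClosed.rest i0 i1 y‖ +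
      ‖RungeClosureNotClosed.rest i0 i1 x - RungeClosureNotClosed.rest i0 i1 y‖ := by
    have := norm_add_le (RungeClosureNotClosed.rest i0 i1 y)
      (RungeClosureNotClosed.rest i0 i1 x - RungeClosureNotClosed.rest i0 i1 y)
    refine le_trans (le_of_eq ?_) this
    congr 1; abel
  have h2 : ‖RungeClosureNotClosed.rest i0 i1 x - RungeClosureNotClosed.rest i0 i1 y‖
      ≤ dist x y := by
    rw [pi_norm_le_iff_of_nonneg dist_nonneg]
    intro i
    by_cases h : i = i0 ∨ i = i1
    · simp [RungeClosureNotClosed.rest, h]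
    · simp only [Pi.sub_apply, RungeClosureNotClosed.rest, h, if_false]
      rw [← dist_eq_norm]; exact dist_le_pi_dist x y i
  linarith

theorem LE1.inv {f : Cn n → ℝ} (hf : LE1 f) (h0 : ∀ x, 0 ≤ f x) :
    LE1 (fun x => (1 + f x)⁻¹) := by
  intro x y
  have hx : 0 < 1 + f x := by have := h0 x; linarith
  have hy : 0 < 1 + f y := by have := h0 y; linarith
  have h1 := hf y x
  rw [dist_comm] at h1
  have hd : 0 ≤ dist x y := dist_nonneg
  have h2 : (1 + f x)⁻¹ - (1 + f y)⁻¹ = (f y - f x) / ((1 + f x) * (1 + f y)) := by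
    field_simp; ring
  have h3 : (f y - f x) / ((1 + f x) * (1 + f y)) ≤ dist x y := by
    rw [div_le_iff₀ (by positivity)]
    have h4 : 1 ≤ (1 + f x) * (1 + f y) := by nlinarith [h0 x, h0 y]
    nlinarith
  linarith

/-- `1 / (1 + |z|)` -/
noncomputable def p1 (i0 : Fin n) (x : Cn n) : ℝ := (1 + ‖x i0 - 0‖)⁻¹

/-- defines the first part of `S_δ'` -/
noncomputable def fA (i0 i1 : Fin n) (x : Cn n) : ℝ :=
  min (p1 i0 x) (min (1 / 8 - ‖x i1 - 0‖) (1 - ‖rest i0 i1 x‖))

/-- defines the second part of `S_δ'` -/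
noncomputable def fB (i0 i1 : Fin n) (x : Cn n) : ℝ :=
  min (1 - ‖x i0 - 0‖) (min (1 / 8 - ‖x i1 - 1‖) (1 - ‖rest i0 i1 x‖))

/-- the big weight -/
noncomputable def dl (i0 i1 : Fin n) (x : Cn n) : ℝ :=
  max 0 (min (p1 i0 x) (min (2 - ‖x i1 - 0‖) (1 - ‖rest i0 i1 x‖)))

/-- the small weight -/
noncomputable def dl' (i0 i1 : Fin n) (x : Cn n) : ℝ := max 0 (max (fA i0 i1 x) (fB i0 i1 x))

theorem p1_pos (i0 : Fin n) (x : Cn n) : 0 < p1 i0 x := by
  unfold p1; positivity

theorem LE1_p1 (i0 : Fin n) : LE1 (p1 i0) :=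
  LE1.inv (LE1.coord i0 0) (fun _ => norm_nonneg _)

theorem LE1_dl (i0 i1 : Fin n) : LE1 (dl i0 i1) :=
  (LE1.const 0).max ((LE1_p1 i0).min (((LE1.coord i1 0).const_sub 2).min
    ((LE1.rest i0 i1).const_sub 1)))

theorem LE1_dl' (i0 i1 : Fin n) : LE1 (dl' i0 i1) := by
  refine (LE1.const 0).max (LE1.max ?_ ?_)
  · exact (LE1_p1 i0).min (((LE1.coord i1 0).const_sub (1 / 8)).min
      ((LE1.rest i0 i1).const_sub 1))
  · exact ((LE1.coord i0 0).const_sub 1).min (((LE1.coord i1 1).const_sub (1 / 8)).min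
      ((LE1.rest i0 i1).const_sub 1))

theorem LE1.lipschitz {f : Cn n → ℝ} (hf : LE1 f) : LipschitzWith 1 f :=
  LipschitzWith.of_le_add hf

theorem fA_le (i0 i1 : Fin n) (x : Cn n) :
    fA i0 i1 x ≤ min (p1 i0 x) (min (2 - ‖x i1 - 0‖) (1 - ‖rest i0 i1 x‖)) := by
  unfold fA
  gcongr
  norm_num

theorem fB_le (i0 i1 : Fin n) (x : Cn n) :
    fB i0 i1 x ≤ min (p1 i0 x) (min (2 - ‖x i1 - 0‖) (1 - ‖rest i0 i1 x‖)) := by
  unfold fB
  refine min_le_min ?_ (min_le_min ?_ le_rfl)
  · unfold p1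
    have h := norm_nonneg (x i0 - 0)
    rw [← one_div, le_div_iff₀ (by positivity)]
    nlinarith
  · have h1 : ‖x i1 - 0‖ ≤ ‖x i1 - 1‖ + 1 := by
      have := norm_add_le (x i1 - 1) (1 : ℂ)
      simpa using this
    linarith

theorem dl'_le (i0 i1 : Fin n) (x : Cn n) : dl' i0 i1 x ≤ dl i0 i1 x := by
  unfold dl' dl
  gcongr
  exact max_le (fA_le i0 i1 x) (fB_le i0 i1 x)

theorem dl_le_p1 (i0 i1 : Fin n) (x : Cn n) : dl i0 i1 x ≤ p1 i0 x :=
  max_le (p1_pos i0 x).le (min_le_left _ _)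

theorem dl_le (i0 i1 : Fin n) (x : Cn n) : dl i0 i1 x ≤ 3 / (1 + ‖x‖) := by
  have hx := norm_nonneg x
  rcases le_or_gt (dl i0 i1 x) 0 with h | h
  · exact h.trans (by positivity)
  · have h1 : 0 < min (p1 i0 x) (min (2 - ‖x i1 - 0‖) (1 - ‖rest i0 i1 x‖)) := by
      unfold dl at h
      rcases lt_max_iff.mp h with h | h
      · exact absurd h (lt_irrefl 0)
      · exact h
    rw [lt_min_iff, lt_min_iff] at h1
    obtain ⟨-, h2, h3⟩ := h1
    have hn : ‖x‖ ≤ ‖x i0 - 0‖ + 2 := by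
      rw [pi_norm_le_iff_of_nonneg (by positivity)]
      intro i
      by_cases hi0 : i = i0
      · subst hi0; simp
      · by_cases hi1 : i = i1
        · subst hi1
          have := norm_nonneg (x i0 - 0)
          rw [sub_zero] at h2
          linarith
        · have e : rest i0 i1 x i = x i := by simp [rest, hi0, hi1]
          have := norm_le_pi_norm (rest i0 i1 x) i
          rw [e] at this
          have := norm_nonneg (x i0 - 0)
          linarith
    refine (dl_le_p1 i0 i1 x).trans ?_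
    unfold p1
    have := norm_nonneg (x i0 - 0)
    rw [← one_div, div_le_div_iff₀ (by positivity) (by positivity)]
    nlinarith

theorem tendsto_bound : Tendsto (fun x : Cn n => 3 / (1 + ‖x‖)) (cocompact (Cn n)) (𝓝 0) := by
  apply Tendsto.div_atTop tendsto_const_nhds
  exact tendsto_atTop_add_const_left _ _ (tendsto_norm_cocompact_atTop)

/-- the weight `δ` -/
noncomputable def W (i0 i1 : Fin n) : Weight n where
  toFun := dl i0 i1
  continuous' := (LE1_dl i0 i1).lipschitz.continuous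
  nonneg' := fun _ => le_max_left _ _
  tendsto' := squeeze_zero (fun _ => le_max_left _ _) (dl_le i0 i1) tendsto_bound

/-- the weight `δ'` -/
noncomputable def W' (i0 i1 : Fin n) : Weight n where
  toFun := dl' i0 i1
  continuous' := (LE1_dl' i0 i1).lipschitz.continuous
  nonneg' := fun _ => le_max_left _ _
  tendsto' := squeeze_zero (fun _ => le_max_left _ _)
    (fun x => (dl'_le i0 i1 x).trans (dl_le i0 i1 x)) tendsto_bound

/-! ### The functions -/

theorem pos_dl' {i0 i1 : Fin n} {x : Cn n} (hx : x ∈ S (W' i0 i1)) :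
    0 < fA i0 i1 x ∨ 0 < fB i0 i1 x := by
  have h : 0 < dl' i0 i1 x := hx
  unfold dl' at h
  rcases lt_max_iff.mp h with h | h
  · exact absurd h (lt_irrefl 0)
  · exact lt_max_iff.mp h

theorem disj {i0 i1 : Fin n} {x : Cn n} (hA : 0 < fA i0 i1 x) : ¬ 0 < fB i0 i1 x := by
  intro hB
  unfold fA at hA
  unfold fB at hB
  rw [lt_min_iff, lt_min_iff] at hA hB
  have h1 := hA.2.1
  have h2 := hB.2.1
  have h3 : ‖(1 : ℂ)‖ ≤ ‖x i1 - 0‖ + ‖x i1 - 1‖ := by
    have := norm_sub_le (x i1 - 0) (x i1 - 1)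
    refine le_trans (le_of_eq ?_) this
    congr 1; ring
  rw [norm_one] at h3
  linarith

theorem continuous_fA (i0 i1 : Fin n) : Continuous (fA i0 i1) :=
  LipschitzWith.continuous (K := 1) <| LE1.lipschitz <|
    (LE1_p1 i0).min (((LE1.coord i1 0).const_sub (1 / 8)).min ((LE1.rest i0 i1).const_sub 1))

theorem continuous_fB (i0 i1 : Fin n) : Continuous (fB i0 i1) :=
  LipschitzWith.continuous (K := 1) <| LE1.lipschitz <|
    ((LE1.coord i0 0).const_sub 1).min (((LE1.coord i1 1).const_sub (1 / 8)).min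
      ((LE1.rest i0 i1).const_sub 1))

theorem isOpen_S (δ : Weight n) : IsOpen (S δ) := isOpen_lt continuous_const δ.continuous'

open Classical in
/-- `g` on the second part of `S_δ'`, `0` elsewhere -/
noncomputable def FB (i0 i1 : Fin n) (g : Cn n → ℂ) (x : Cn n) : ℂ :=
  if 0 < fB i0 i1 x then g x else 0

theorem FB_mem (i0 i1 : Fin n) {g : Cn n → ℂ} (hg : Differentiable ℂ g) {C : ℝ} (hC : 0 ≤ C)
    (hb : ∀ x, ‖x i0‖ ≤ 1 → ‖g x‖ ≤ C) : FB i0 i1 g ∈ O (W' i0 i1) := by
  refine ⟨?_, ?_, 0, C, ?_⟩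
  · intro x hx
    apply DifferentiableAt.differentiableWithinAt
    rcases pos_dl' hx with h | h
    · have : ∀ᶠ y in 𝓝 x, 0 < fA i0 i1 y := (continuous_fA i0 i1).continuousAt.eventually_const_lt h
      have e : FB i0 i1 g =ᶠ[𝓝 x] fun _ => 0 := this.mono fun y hy => by
        simp only [FB, disj hy, if_false]
      exact (differentiableAt_const 0).congr_of_eventuallyEq e
    · have : ∀ᶠ y in 𝓝 x, 0 < fB i0 i1 y := (continuous_fB i0 i1).continuousAt.eventually_const_lt h
      have e : FB i0 i1 g =ᶠ[𝓝 x] g := this.mono fun y hy => by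
        simp only [FB, hy, if_true]
      exact (hg x).congr_of_eventuallyEq e
  · intro x hx
    have : ¬ 0 < fB i0 i1 x := fun h => hx (lt_max_of_lt_right (lt_max_of_lt_right h))
    simp only [FB, this, if_false]
  · intro x _
    rw [pow_zero, one_mul]
    unfold FB
    split_ifs with h
    · apply hb
      unfold fB at h
      rw [lt_min_iff] at h
      have := h.1
      rw [sub_zero] at this
      linarith
    · simpa using hC

theorem bound_psum (i0 i1 : Fin n) (m : ℕ) (x : Cn n) {d : ℝ} (hd0 : 0 ≤ d)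
    (hd : d ≤ p1 i0 x) : d ^ m * ‖psum m (x i0)‖ ≤ m := by
  have h1 : (0 : ℝ) < 1 + ‖x i0‖ := by positivity
  have h2 : p1 i0 x = (1 + ‖x i0‖)⁻¹ := by rw [p1, sub_zero]
  calc d ^ m * ‖psum m (x i0)‖ ≤ (p1 i0 x) ^ m * (m * (1 + ‖x i0‖) ^ m) := by
        have := psum_bound m (x i0)
        have h3 := pow_nonneg (p1_pos i0 x).le m
        gcongr
    _ = m := by
        rw [h2, inv_pow]; field_simp

open Classical in
/-- the approximants on `S_δ` -/
noncomputable def UU (i0 i1 : Fin n) (δ : Weight n) (m j : ℕ) (x : Cn n) : ℂ :=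
  if 0 < δ x then stp^[j] (x i1) * psum m (x i0) else 0

theorem UU_mem (i0 i1 : Fin n) {δ : Weight n} (hδ : ∀ x, δ x ≤ dl i0 i1 x) (m j : ℕ) :
    UU i0 i1 δ m j ∈ O δ := by
  have hg : Differentiable ℂ (fun x : Cn n => stp^[j] (x i1) * psum m (x i0)) :=
    ((differentiable_stp_iter j).comp (differentiable_apply i1)).mul
      ((differentiable_psum m).comp (differentiable_apply i0))
  obtain ⟨K, hK⟩ := (isCompact_closedBall (0 : ℂ) 2).exists_bound_of_continuousOn
    (differentiable_stp_iter j).continuous.continuousOn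
  refine ⟨?_, ?_, m, K * m, ?_⟩
  · refine hg.differentiableOn.congr fun x hx => ?_
    have : 0 < δ x := hx
    simp only [UU, this, if_true]
  · intro x hx
    have : ¬ 0 < δ x := hx
    simp only [UU, this, if_false]
  · intro x hx
    have hx0 : 0 < δ x := hx
    simp only [UU, hx0, if_true]
    have h1 : 0 < dl i0 i1 x := hx0.trans_le (hδ x)
    have h2 : ‖x i1‖ < 2 := by
      unfold dl at h1
      rcases lt_max_iff.mp h1 with h | h
      · exact absurd h (lt_irrefl 0)
      · rw [lt_min_iff, lt_min_iff] at h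
        have := h.2.1
        rw [sub_zero] at this
        linarith
    have h3 : ‖stp^[j] (x i1)‖ ≤ K := hK _ (by simpa using h2.le)
    have h4 := bound_psum i0 i1 m x hx0.le ((hδ x).trans (dl_le_p1 i0 i1 x))
    rw [norm_mul]
    have h5 : 0 ≤ δ x ^ m * ‖psum m (x i0)‖ := by positivity
    calc δ x ^ m * (‖stp^[j] (x i1)‖ * ‖psum m (x i0)‖)
        = ‖stp^[j] (x i1)‖ * (δ x ^ m * ‖psum m (x i0)‖) := by ring
      _ ≤ K * m := by
          gcongr
          exact (norm_nonneg _).trans h3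

/-- the approximants in `O(δ')` -/
noncomputable def V (i0 i1 : Fin n) (m j : ℕ) : O (W' i0 i1) :=
  ⟨UU i0 i1 (W' i0 i1) m j, UU_mem i0 i1 (dl'_le i0 i1) m j⟩

theorem V_mem_R (i0 i1 : Fin n) (m j : ℕ) : V i0 i1 m j ∈ R (W i0 i1) (W' i0 i1) := by
  refine ⟨⟨UU i0 i1 (W i0 i1) m j, UU_mem i0 i1 (fun _ => le_rfl) m j⟩, fun x hx => ?_⟩
  have h1 : 0 < (W' i0 i1) x := hx
  have h2 : 0 < (W i0 i1) x := h1.trans_le (dl'_le i0 i1 x)
  simp only [V, UU, h1, h2, if_true]

/-- the function `psum m z` on the second part of `S_δ'`, `0` on the first part -/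
noncomputable def fm (i0 i1 : Fin n) (m : ℕ) : O (W' i0 i1) :=
  ⟨FB i0 i1 (fun x => psum m (x i0)), FB_mem i0 i1
    ((differentiable_psum m).comp (differentiable_apply i0)) (C := m * 2 ^ m) (by positivity)
    (fun x hx => (psum_bound m (x i0)).trans (by gcongr; linarith))⟩

/-- the function `exp z` on the second part of `S_δ'`, `0` on the first part -/
noncomputable def ff (i0 i1 : Fin n) : O (W' i0 i1) :=
  ⟨FB i0 i1 (fun x => Complex.exp (x i0)), FB_mem i0 i1
    (Complex.differentiable_exp.comp (differentiable_apply i0)) (C := Real.exp 1) (by positivity)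
    (fun x hx => (Complex.norm_exp_le_exp_norm _).trans (Real.exp_le_exp.mpr hx))⟩

theorem born_fm (i0 i1 : Fin n) (m : ℕ) : BornLim (W' i0 i1) (V i0 i1 m) (fm i0 i1 m) := by
  refine ⟨m, fun ε hε => ?_⟩
  have hlim : Tendsto (fun j : ℕ => (1 / 2 : ℝ) ^ j * m) atTop (𝓝 (0 * m)) :=
    (tendsto_pow_atTop_nhds_zero_of_lt_one (by norm_num) (by norm_num)).mul_const _
  rw [zero_mul] at hlim
  filter_upwards [hlim.eventually_lt_const hε] with j hj x hx
  refine le_trans ?_ hj.le
  have hx0 : 0 < (W' i0 i1) x := hx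
  have h4 := bound_psum i0 i1 m x hx0.le ((dl'_le i0 i1 x).trans (dl_le_p1 i0 i1 x))
  have h5 : 0 ≤ (W' i0 i1) x ^ m * ‖psum m (x i0)‖ := by positivity
  have key : ∃ c : ℂ, ‖c‖ ≤ (1 / 2) ^ j ∧
      ((V i0 i1 m j - fm i0 i1 m : O (W' i0 i1)) : Cn n → ℂ) x = c * psum m (x i0) := by
    rcases pos_dl' hx with h | h
    · refine ⟨stp^[j] (x i1), stp_iter_bound j ?_, ?_⟩
      · unfold fA at h
        rw [lt_min_iff, lt_min_iff] at h
        have := h.2.1
        rw [sub_zero] at this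
        linarith
      · simp only [V, fm, UU, FB, Submodule.coe_sub, Pi.sub_apply, hx0, disj h, if_true, if_false,
          sub_zero]
    · refine ⟨stp^[j] (x i1) - 1, stp_iter_bound_one j ?_, ?_⟩
      · unfold fB at h
        rw [lt_min_iff, lt_min_iff] at h
        linarith [h.2.1]
      · simp only [V, fm, UU, FB, Submodule.coe_sub, Pi.sub_apply, hx0, h, if_true]
        ring
  obtain ⟨c, hc, he⟩ := key
  rw [he, norm_mul]
  calc (W' i0 i1) x ^ m * (‖c‖ * ‖psum m (x i0)‖)
      = ‖c‖ * ((W' i0 i1) x ^ m * ‖psum m (x i0)‖) := by ring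
    _ ≤ (1 / 2) ^ j * m := by gcongr

theorem born_ff (i0 i1 : Fin n) : BornLim (W' i0 i1) (fm i0 i1) (ff i0 i1) := by
  refine ⟨0, fun ε hε => ?_⟩
  have hlim : Tendsto (fun m : ℕ => (2 : ℝ) / m) atTop (𝓝 0) :=
    tendsto_const_div_atTop_nhds_zero_nat 2
  filter_upwards [hlim.eventually_lt_const hε, eventually_gt_atTop 0] with m hm hm0 x hx
  rw [pow_zero, one_mul]
  refine le_trans ?_ hm.le
  simp only [fm, ff, FB, Submodule.coe_sub, Pi.sub_apply]
  split_ifs with h
  · apply psum_exp hm0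
    unfold fB at h
    rw [lt_min_iff] at h
    have := h.1
    rw [sub_zero] at this
    linarith
  · rw [sub_zero, norm_zero]; positivity

/-! ### The limit is not a bornological limit -/

/-- the point `(z, w, 0, …)` -/
def vec (i0 i1 : Fin n) (z w : ℂ) : Cn n := fun i => if i = i0 then z else if i = i1 then w else 0

theorem vec_i0 (i0 i1 : Fin n) (z w : ℂ) : vec i0 i1 z w i0 = z := by simp [vec]

theorem vec_i1 {i0 i1 : Fin n} (h : i0 ≠ i1) (z w : ℂ) : vec i0 i1 z w i1 = w := by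
  simp [vec, h.symm]

theorem rest_vec (i0 i1 : Fin n) (z w : ℂ) : ‖rest i0 i1 (vec i0 i1 z w)‖ = 0 := by
  rw [norm_eq_zero]
  funext i
  by_cases h0 : i = i0
  · simp [rest, h0]
  · by_cases h1 : i = i1
    · simp [rest, h1]
    · simp [rest, vec, h0, h1]

theorem vec_mem_S {i0 i1 : Fin n} (h : i0 ≠ i1) {z w : ℂ} (hw : ‖w‖ < 2) :
    vec i0 i1 z w ∈ S (W i0 i1) := by
  show 0 < dl i0 i1 (vec i0 i1 z w)
  unfold dl
  refine lt_max_of_lt_right ?_
  rw [lt_min_iff, lt_min_iff, rest_vec, vec_i1 h, sub_zero]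
  exact ⟨p1_pos _ _, by linarith, by norm_num⟩

theorem differentiable_vec_left (i0 i1 : Fin n) (w : ℂ) :
    Differentiable ℂ (fun z => vec i0 i1 z w) := by
  rw [differentiable_pi]
  intro i
  by_cases h0 : i = i0
  · simp only [vec, h0, if_true]; exact differentiable_id
  · simp only [vec, h0, if_false]; exact differentiable_const _

theorem differentiable_vec_right (i0 i1 : Fin n) (z : ℂ) :
    Differentiable ℂ (fun w => vec i0 i1 z w) := by
  rw [differentiable_pi]
  intro i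
  by_cases h0 : i = i0
  · simp only [vec, h0, if_true]; exact differentiable_const _
  · by_cases h1 : i = i1
    · simp only [vec, h0, h1, if_false, if_true]
      by_cases h2 : i1 = i0
      · simp only [h2, if_true]; exact differentiable_const _
      · simp only [h2, if_false]; exact differentiable_id
    · simp only [vec, h0, h1, if_false]; exact differentiable_const _

/-- The finite differences of order `N + 1` in `z` of an element of `O(δ)` which has growth `N` in
`z` for small `w` vanish for all `w`. -/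
theorem fd_zero {i0 i1 : Fin n} (h01 : i0 ≠ i1) {u : Cn n → ℂ}
    (hu : DifferentiableOn ℂ u (S (W i0 i1))) (N : ℕ) {C : ℝ}
    (hb : ∀ z w, ‖w‖ < 1 / 8 → (W' i0 i1) (vec i0 i1 z w) ^ N * ‖u (vec i0 i1 z w)‖ ≤ C) (t : ℂ) :
    ∀ w, ‖w‖ < 2 → (fwdDiff t)^[N + 1] (fun z => u (vec i0 i1 z w)) 0 = 0 := by
  set G : ℂ → ℂ := fun w => (fwdDiff t)^[N + 1] (fun z => u (vec i0 i1 z w)) 0 with hG
  have hGs : ∀ w, G w = ∑ k ∈ Finset.range (N + 1 + 1),
      ((-1 : ℤ) ^ (N + 1 - k) * ((N + 1).choose k : ℤ)) • u (vec i0 i1 (0 + k • t) w) := by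
    intro w
    rw [hG]
    exact fwdDiff_iter_eq_sum_shift t (fun z => u (vec i0 i1 z w)) (N + 1) 0
  have hdiff : DifferentiableOn ℂ G (Metric.ball 0 2) := by
    have : ∀ w ∈ Metric.ball (0 : ℂ) 2, G w = (fun w => ∑ k ∈ Finset.range (N + 1 + 1),
      ((-1 : ℤ) ^ (N + 1 - k) * ((N + 1).choose k : ℤ)) • u (vec i0 i1 (0 + k • t) w)) w :=
      fun w _ => hGs w
    refine DifferentiableOn.congr ?_ this
    apply DifferentiableOn.fun_sum
    intro k _
    apply DifferentiableOn.const_smul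
    refine hu.comp (differentiable_vec_right i0 i1 _).differentiableOn ?_
    intro w hw
    exact vec_mem_S h01 (by simpa using hw)
  have hsmall : ∀ w, ‖w‖ < 1 / 8 → G w = 0 := by
    intro w hw
    have hc : 0 < 1 / 8 - ‖w‖ := by linarith
    have hC0 : 0 ≤ C := by
      refine le_trans ?_ (hb 0 w hw)
      have := (W' i0 i1).nonneg' (vec i0 i1 0 w)
      have h2 : 0 ≤ (W' i0 i1) (vec i0 i1 0 w) := this
      positivity
    have := fwdDiff_eq_zero_of_growth t N (fun z => u (vec i0 i1 z w)) ?_ ?_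
    · rw [hG]
      show (fwdDiff t)^[N + 1] (fun z => u (vec i0 i1 z w)) 0 = 0
      rw [this]; rfl
    · intro z
      have h1 : DifferentiableAt ℂ u (vec i0 i1 z w) :=
        hu.differentiableAt ((isOpen_S _).mem_nhds (vec_mem_S h01 (by linarith)))
      exact h1.comp z (differentiable_vec_left i0 i1 w z)
    · refine ⟨C / (1 / 8 - ‖w‖) ^ N, fun z => ?_⟩
      have hz : 0 < 1 + ‖z‖ := by positivity
      have hlow : (1 / 8 - ‖w‖) / (1 + ‖z‖) ≤ (W' i0 i1) (vec i0 i1 z w) := by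
        show (1 / 8 - ‖w‖) / (1 + ‖z‖) ≤ dl' i0 i1 (vec i0 i1 z w)
        unfold dl'
        refine le_max_of_le_right (le_max_of_le_left ?_)
        unfold fA
        rw [rest_vec, vec_i1 h01, sub_zero, p1, vec_i0, sub_zero]
        have hw0 := norm_nonneg w
        have hz0 := norm_nonneg z
        refine le_min ?_ (le_min ?_ ?_)
        · rw [div_eq_mul_inv]
          have : (0 : ℝ) < (1 + ‖z‖)⁻¹ := by positivity
          nlinarith
        · rw [div_le_iff₀ hz]; nlinarith
        · rw [div_le_iff₀ hz]; nlinarith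
      have h2 := hb z w hw
      have h3 : ((1 / 8 - ‖w‖) / (1 + ‖z‖)) ^ N * ‖u (vec i0 i1 z w)‖ ≤ C := by
        refine le_trans ?_ h2
        have : 0 ≤ (1 / 8 - ‖w‖) / (1 + ‖z‖) := by positivity
        gcongr
      rw [div_pow] at h3
      have h4 : 0 < (1 / 8 - ‖w‖) ^ N := by positivity
      have h5 : 0 < (1 + ‖z‖) ^ N := by positivity
      rw [div_mul_eq_mul_div, div_le_iff₀ h5] at h3
      rw [div_mul_eq_mul_div, le_div_iff₀ h4]
      linarith
  have han : AnalyticOnNhd ℂ G (Metric.ball 0 2) := hdiff.analyticOnNhd Metric.isOpen_ball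
  have hev : G =ᶠ[𝓝 0] 0 := by
    filter_upwards [Metric.ball_mem_nhds (0 : ℂ) (by norm_num : (0 : ℝ) < 1 / 8)] with w hw
    exact hsmall w (by simpa using hw)
  have hz := han.eqOn_zero_of_preconnected_of_eventuallyEq_zero
    (convex_ball (0 : ℂ) 2).isPreconnected (Metric.mem_ball_self (by norm_num)) hev
  intro w hw
  exact hz (by simpa using hw)

theorem ff_not_mem_L {i0 i1 : Fin n} (h01 : i0 ≠ i1) : ff i0 i1 ∉ L (W i0 i1) (W' i0 i1) := by
  rintro ⟨v, hv, N, hN⟩
  set t : ℂ := ((1 / (N + 2) : ℝ) : ℂ) with ht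
  have htn : ‖t‖ = 1 / (N + 2) := by
    rw [ht, Complex.norm_real, Real.norm_eq_abs, abs_of_pos (by positivity)]
  -- points at which the limit is evaluated
  have hpt : ∀ k ∈ Finset.range (N + 1 + 1), 0 < fB i0 i1 (vec i0 i1 (0 + k • t) 1) := by
    intro k hk
    have hk' : (k : ℝ) ≤ N + 1 := by
      have := Finset.mem_range.mp hk
      exact_mod_cast Nat.lt_succ_iff.mp this
    unfold fB
    rw [rest_vec, vec_i1 h01, vec_i0, lt_min_iff, lt_min_iff]
    refine ⟨?_, by norm_num, by norm_num⟩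
    rw [zero_add, sub_zero, nsmul_eq_mul, norm_mul, htn, Complex.norm_natCast]
    have : (k : ℝ) * (1 / (N + 2)) < 1 := by
      rw [mul_one_div, div_lt_one (by positivity)]; linarith
    linarith
  -- values of the approximants converge
  have hconv : ∀ k ∈ Finset.range (N + 1 + 1),
      Tendsto (fun j => (v j : Cn n → ℂ) (vec i0 i1 (0 + k • t) 1)) atTop
        (𝓝 (Complex.exp (0 + k • t))) := by
    intro k hk
    have hB := hpt k hk
    have hS : vec i0 i1 (0 + k • t) 1 ∈ S (W' i0 i1) :=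
      lt_max_of_lt_right (lt_max_of_lt_right hB)
    set x := vec i0 i1 (0 + k • t) 1 with hx
    have hpos : 0 < (W' i0 i1) x := hS
    have hf : (ff i0 i1 : Cn n → ℂ) x = Complex.exp (0 + k • t) := by
      have : x i0 = 0 + k • t := vec_i0 _ _ _ _
      simp only [ff, FB, hB, if_true, this]
    rw [← hf, Metric.tendsto_nhds]
    intro ε hε
    have hp : 0 < (W' i0 i1) x ^ N := by positivity
    filter_upwards [hN ((W' i0 i1) x ^ N * (ε / 2)) (by positivity)] with j hj
    have h1 := hj x hS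
    rw [dist_eq_norm]
    have h2 : ‖((v j - ff i0 i1 : O (W' i0 i1)) : Cn n → ℂ) x‖ ≤ ε / 2 :=
      le_of_mul_le_mul_left h1 hp
    have h3 : ((v j - ff i0 i1 : O (W' i0 i1)) : Cn n → ℂ) x
        = (v j : Cn n → ℂ) x - (ff i0 i1 : Cn n → ℂ) x := rfl
    rw [h3] at h2
    linarith
  -- eventually the finite differences vanish
  have hzero : ∀ᶠ j in atTop, ∑ k ∈ Finset.range (N + 1 + 1),
      ((-1 : ℤ) ^ (N + 1 - k) * ((N + 1).choose k : ℤ)) •
        (v j : Cn n → ℂ) (vec i0 i1 (0 + k • t) 1) = 0 := by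
    filter_upwards [hN 1 one_pos] with j hj
    obtain ⟨⟨u, hu1, hu2, hu3⟩, hu⟩ := hv j
    have hu' : ∀ z ∈ S (W' i0 i1), (v j : Cn n → ℂ) z = u z := hu
    have hb : ∀ z w, ‖w‖ < 1 / 8 →
        (W' i0 i1) (vec i0 i1 z w) ^ N * ‖u (vec i0 i1 z w)‖ ≤ 1 := by
      intro z w hw
      have hA : 0 < fA i0 i1 (vec i0 i1 z w) := by
        unfold fA
        rw [rest_vec, vec_i1 h01, sub_zero, lt_min_iff, lt_min_iff]
        exact ⟨p1_pos _ _, by linarith, by norm_num⟩
      have hS : vec i0 i1 z w ∈ S (W' i0 i1) := lt_max_of_lt_right (lt_max_of_lt_left hA)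
      have h1 := hj _ hS
      have h3 : ((v j - ff i0 i1 : O (W' i0 i1)) : Cn n → ℂ) (vec i0 i1 z w)
          = (v j : Cn n → ℂ) (vec i0 i1 z w) - (ff i0 i1 : Cn n → ℂ) (vec i0 i1 z w) := rfl
      have h4 : (ff i0 i1 : Cn n → ℂ) (vec i0 i1 z w) = 0 := by
        simp only [ff, FB, disj hA, if_false]
      rw [h3, h4, sub_zero, hu' _ hS] at h1
      exact h1
    have := fd_zero h01 hu1 N hb t 1 (by norm_num)
    rw [fwdDiff_iter_eq_sum_shift] at this
    refine Eq.trans ?_ this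
    refine Finset.sum_congr rfl fun k hk => ?_
    rw [hu' _ (lt_max_of_lt_right (lt_max_of_lt_right (hpt k hk)))]
  have hlim : Tendsto (fun j => ∑ k ∈ Finset.range (N + 1 + 1),
      ((-1 : ℤ) ^ (N + 1 - k) * ((N + 1).choose k : ℤ)) •
        (v j : Cn n → ℂ) (vec i0 i1 (0 + k • t) 1)) atTop
      (𝓝 (∑ k ∈ Finset.range (N + 1 + 1),
      ((-1 : ℤ) ^ (N + 1 - k) * ((N + 1).choose k : ℤ)) • Complex.exp (0 + k • t))) := by
    apply tendsto_finsetSum
    intro k hk
    exact (hconv k hk).const_smul _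
  have hl0 := tendsto_nhds_unique hlim (tendsto_const_nhds.congr' (hzero.mono fun j hj => hj.symm))
  rw [← fwdDiff_iter_eq_sum_shift t Complex.exp (N + 1) 0, fwdDiff_exp] at hl0
  have hne : Complex.exp t - 1 ≠ 0 := by
    rw [ht, ← Complex.ofReal_exp, ← Complex.ofReal_one, ← Complex.ofReal_sub]
    rw [Ne, Complex.ofReal_eq_zero]
    have : 1 < Real.exp (1 / (N + 2)) := Real.one_lt_exp_iff.mpr (by positivity)
    linarith
  exact mul_ne_zero (pow_ne_zero _ hne) (Complex.exp_ne_zero _) hl0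

end example_

/-- **Ferrier's question has a negative answer in every dimension `n ≥ 2`.** There are Lipschitz
weights `δ' ≤ δ` on `ℂⁿ` such that the set `L` of the bornological limits in `O(δ')` of sequences
of restrictions of elements of `O(δ)` is not closed for the inductive limit topology; some function
is in the topological closure of the set `R` of restrictions, but not in `L`. -/
theorem result (n : ℕ) (hn : 2 ≤ n) :
    ∃ δ δ' : Weight n, (∃ K, LipschitzWith K δ) ∧ (∃ K, LipschitzWith K δ') ∧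
      (∀ z, δ' z ≤ δ z) ∧
      (∃ f : O δ', f ∈ @closure (O δ') (indTop δ') (R δ δ') ∧ f ∉ L δ δ') ∧
      ¬ @IsClosed (O δ') (indTop δ') (L δ δ') := by
  set i0 : Fin n := ⟨0, by omega⟩ with h0
  set i1 : Fin n := ⟨1, by omega⟩ with h1
  have h01 : i0 ≠ i1 := by
    rw [h0, h1]; intro h; simp at h
  have hcl : ff i0 i1 ∈ @closure (O (W' i0 i1)) (indTop (W' i0 i1)) (R (W i0 i1) (W' i0 i1)) := by
    let _ : TopologicalSpace (O (W' i0 i1)) := indTop (W' i0 i1)
    have h2 : ∀ m, fm i0 i1 m ∈ closure (R (W i0 i1) (W' i0 i1)) := fun m =>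
      mem_closure_of_tendsto (born_fm i0 i1 m).tendsto
        (Eventually.of_forall fun j => V_mem_R i0 i1 m j)
    have h3 : ff i0 i1 ∈ closure (closure (R (W i0 i1) (W' i0 i1))) :=
      mem_closure_of_tendsto (born_ff i0 i1).tendsto (Eventually.of_forall h2)
    rwa [closure_closure] at h3
  refine ⟨W i0 i1, W' i0 i1, ⟨1, (LE1_dl i0 i1).lipschitz⟩, ⟨1, (LE1_dl' i0 i1).lipschitz⟩,
    dl'_le i0 i1, ⟨ff i0 i1, hcl, ff_not_mem_L h01⟩, ?_⟩
  intro hclosed
  let _ : TopologicalSpace (O (W' i0 i1)) := indTop (W' i0 i1)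
  have hRL : R (W i0 i1) (W' i0 i1) ⊆ L (W i0 i1) (W' i0 i1) := by
    intro v hv
    refine ⟨fun _ => v, fun _ => hv, 0, fun ε hε => Eventually.of_forall fun k z hz => ?_⟩
    simp only [sub_self, Submodule.coe_zero, Pi.zero_apply, norm_zero, mul_zero]
    exact hε.le
  exact ff_not_mem_L h01 (closure_minimal hRL hclosed hcl)

end Pool.Agent.Results.MP_26d9d0_an.RungeClosureNotClosed
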